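import Pool.Agent.Helper12.MA.StB
import Pool.Agent.Helper12.MA.Lib
import Pool.Agent.Helper41.AJ.M_CON

/-!
# Project MA (MP_d63854_co), module BAS: consequences of the base hypotheses
-/

set_option autoImplicit false

namespace Pool.Agent.Helper9.MA

open Pool.Agent.Helper12.MA
open Pool.Agent.Helper51.AJ (IsMinor Planar Apex ExMinor Con Tch con_nonempty)
open Pool.Agent.Helper12.NK (rst Kc add cnt Pcy IsFace Cof plus)

variable {V : Type}

private theorem cutc [Finite V] {B : SimpleGraph V} {S : Set V} (h : Con B S) {T : Set V} (h1 : T ⊆ S)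
    (h2 : T.Nonempty) (h3 : T ≠ S) : Tch B T (S \ T) :=
  (Pool.Agent.Helper41.AJ.hCON V B S h).1 T h1 h2 h3

private theorem pair_le (a b : V) : ({a, b} : Set V).ncard ≤ 2 := by
  have h := Set.ncard_insert_le a {b}
  rw [Set.ncard_singleton] at h
  exact h

/-- a criterion for connected sets -/
private theorem con_of {B : SimpleGraph V} {S : Set V} (hS : S.Nonempty)
    (h : ∀ T : Set V, T ⊆ S → T.Nonempty → T ≠ S → Tch B T (S \ T)) : Con B S := by
  obtain ⟨x, hx⟩ := hS
  set T : Set V := {a | ∃ ha : a ∈ S, (B.induce S).Reachable ⟨x, hx⟩ ⟨a, ha⟩} with hT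
  have hTS : T ⊆ S := fun a ha => ha.1
  have hxT : x ∈ T := ⟨hx, SimpleGraph.Reachable.refl _⟩
  have hall : T = S := by
    by_contra hne
    obtain ⟨a, ⟨ha, hr⟩, b, hb, hab⟩ := h T hTS ⟨x, hxT⟩ hne
    refine hb.2 ⟨hb.1, hr.trans (SimpleGraph.Adj.reachable ?_)⟩
    exact hab
  have : Nonempty S := ⟨⟨x, hx⟩⟩
  refine SimpleGraph.connected_iff_exists_forall_reachable _ |>.2 ⟨⟨x, hx⟩, ?_⟩
  rintro ⟨a, ha⟩
  have ha' : a ∈ T := by rw [hall]; exact ha
  exact ha'.2

private theorem kc_of [Finite V] {G : SimpleGraph V} (h : Bh G) (k : ℕ) (S : Set V)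
    (hS : S.ncard + k ≤ 5) : Kc k G Sᶜ := by
  have h8 := h.n8
  have hc : S.ncard + Sᶜ.ncard = Nat.card V := Set.ncard_add_ncard_compl S
  refine ⟨by omega, fun X hX => ?_⟩
  have e : Sᶜ \ X = (S ∪ X)ᶜ := by
    ext a
    simp only [Set.mem_diff, Set.mem_compl_iff, Set.mem_union, not_or]
  rw [e]
  refine h.kc _ ?_
  have := Set.ncard_union_le S X
  omega

private theorem dlcomm (G : SimpleGraph V) (x y : V) : dl G x y = dl G y x := by
  ext a b
  constructor
  · rintro ⟨h1, h2, h3⟩
    exact ⟨h1, fun h => h3 h, fun h => h2 h⟩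
  · rintro ⟨h1, h2, h3⟩
    exact ⟨h1, fun h => h3 h, fun h => h2 h⟩

private theorem part5 [Finite V] {G : SimpleGraph V} (h : Bh G) {D T : Set V} (hD : D.ncard ≤ 3)
    (x y : V) (hT : T ⊆ Dᶜ) (hx : x ∈ T) (hy : y ∈ Dᶜ \ T) :
    Tch (dl G x y) T (Dᶜ \ T) := by
  have h8 := h.n8
  have hc : D.ncard + Dᶜ.ncard = Nat.card V := Set.ncard_add_ncard_compl D
  have hxy : x ≠ y := fun e => hy.2 (e ▸ hx)
  by_cases h1 : T = {x}
  · -- the other side is larger
    have h2 : Dᶜ \ T ≠ {y} := by
      intro h2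
      have h3 : Dᶜ = {x, y} := by
        ext a
        constructor
        · intro ha
          by_cases haT : a ∈ T
          · rw [h1] at haT
            exact Or.inl haT
          · have : a ∈ Dᶜ \ T := ⟨ha, haT⟩
            rw [h2] at this
            exact Or.inr this
        · rintro (rfl | rfl)
          · exact hT hx
          · exact hy.1
      have h4 : Dᶜ.ncard ≤ 2 := by
        rw [h3]
        exact pair_le x y
      omega
    have hcon : Con G (insert y D)ᶜ := h.kc _ ((Set.ncard_insert_le y D).trans (by omega))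
    have hTW : T ⊆ (insert y D)ᶜ := by
      intro a ha
      rintro (rfl | hb)
      · exact hy.2 ha
      · exact hT ha hb
    have hne : T ≠ (insert y D)ᶜ := by
      intro he
      apply h2
      ext a
      constructor
      · rintro ⟨ha1, ha2⟩
        by_contra hay
        apply ha2
        rw [he]
        rintro (hb | hb)
        · exact hay hb
        · exact ha1 hb
      · rintro rfl
        exact hy
    obtain ⟨a, ha, b, hb, hab⟩ := cutc hcon hTW ⟨x, hx⟩ hne
    have hby : b ≠ y := fun e => hb.1 (Or.inl e)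
    have hbx : b ≠ x := fun e => hb.2 (e ▸ hx)
    exact ⟨a, ha, b, ⟨fun hd => hb.1 (Or.inr hd), hb.2⟩, hab, fun k => hby k.2, fun k => hbx k.2⟩
  · have hcon : Con G (insert x D)ᶜ := h.kc _ ((Set.ncard_insert_le x D).trans (by omega))
    have hTW : T \ {x} ⊆ (insert x D)ᶜ := by
      rintro a ⟨ha, hax⟩
      rintro (hb | hb)
      · exact hax hb
      · exact hT ha hb
    have hnon : (T \ {x}).Nonempty := by
      by_contra hcc
      rw [Set.not_nonempty_iff_eq_empty] at hcc
      apply h1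
      ext a
      constructor
      · intro ha
        by_contra hax
        have : a ∈ T \ {x} := ⟨ha, hax⟩
        rw [hcc] at this
        exact this
      · rintro rfl
        exact hx
    have hyW : y ∈ (insert x D)ᶜ := by
      rintro (hb | hb)
      · exact hxy hb.symm
      · exact hy.1 hb
    have hne : T \ {x} ≠ (insert x D)ᶜ := by
      intro he
      have : y ∈ T \ {x} := by rw [he]; exact hyW
      exact hy.2 this.1
    obtain ⟨a, ha, b, hb, hab⟩ := cutc hcon hTW hnon hne
    have hbx : b ≠ x := fun e => hb.1 (Or.inl e)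
    have hax : a ≠ x := fun e => ha.2 e
    refine ⟨a, ha.1, b, ⟨fun hd => hb.1 (Or.inr hd), fun hbT => hb.2 ⟨hbT, hbx⟩⟩, hab,
      fun k => hax k.1, fun k => hbx k.2⟩

private theorem kc5 [Finite V] {G : SimpleGraph V} (h : Bh G) (s x y : V) : Kc 3 (dl G x y) {s}ᶜ := by
  have h8 := h.n8
  have hc : ({s} : Set V).ncard + ({s} : Set V)ᶜ.ncard = Nat.card V := Set.ncard_add_ncard_compl _
  have hs : ({s} : Set V).ncard = 1 := Set.ncard_singleton s
  refine ⟨by omega, fun X hX => ?_⟩
  have e : ({s} : Set V)ᶜ \ X = ({s} ∪ X)ᶜ := by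
    ext a
    simp only [Set.mem_diff, Set.mem_compl_iff, Set.mem_union, not_or]
  rw [e]
  set D : Set V := {s} ∪ X with hDdef
  have hD : D.ncard ≤ 3 := by
    have := Set.ncard_union_le {s} X
    rw [← hDdef] at this
    omega
  have hcon : Con G Dᶜ := h.kc _ (by omega)
  refine con_of (con_nonempty hcon) fun T hT hT1 hT2 => ?_
  obtain ⟨a, ha, b, hb, hab⟩ := cutc hcon hT hT1 hT2
  by_cases k1 : a = x ∧ b = y
  · obtain ⟨rfl, rfl⟩ := k1
    exact part5 h hD a b hT ha hb
  by_cases k2 : a = y ∧ b = x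
  · obtain ⟨rfl, rfl⟩ := k2
    rw [dlcomm]
    exact part5 h hD a b hT ha hb
  exact ⟨a, ha, b, hb, hab, k1, k2⟩

/-- Module BAS. -/
theorem hBAS : StEDG → StBAS := by
  intro hEDG V _ G h
  refine ⟨fun s => ?_, fun s t => ?_, fun s t u => ?_, fun x => ?_, fun s x y => kc5 h s x y,
    fun A hA hn => ?_, fun s x y hxy hs hcof => ?_⟩
  · exact kc_of h 4 {s} (by rw [Set.ncard_singleton])
  · exact kc_of h 3 {s, t} (by have := pair_le s t; omega)
  · refine kc_of h 2 {s, t, u} ?_
    have h1 := Set.ncard_insert_le s {t, u}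
    have h2 := pair_le t u
    omega
  · by_contra hlt
    have h8 := h.n8
    set X : Set V := {a | G.Adj x a} with hX
    have hc : X.ncard + Xᶜ.ncard = Nat.card V := Set.ncard_add_ncard_compl X
    have hcon : Con G Xᶜ := h.kc X (by omega)
    have hxX : x ∈ Xᶜ := fun hx => G.ne_of_adj hx rfl
    have hne : ({x} : Set V) ≠ Xᶜ := by
      intro he
      rw [← he, Set.ncard_singleton] at hc
      omega
    obtain ⟨a, ha, b, hb, hab⟩ := cutc hcon (Set.singleton_subset_iff.2 hxX) ⟨x, rfl⟩ hne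
    obtain rfl : a = x := ha
    exact hb.1 hab
  · have hcon : Con G (Nb G A)ᶜ := h.kc _ hn
    have hAs : A ⊆ (Nb G A)ᶜ := fun a ha hb => hb.1 ha
    have he : A = (Nb G A)ᶜ := by
      by_contra hne
      obtain ⟨a, ha, b, hb, hab⟩ := cutc hcon hAs hA hne
      exact hb.1 ⟨hb.2, a, ha, hab⟩
    ext a
    constructor
    · intro _; trivial
    · intro _
      by_cases ha : a ∈ Nb G A
      · exact Or.inr ha
      · refine Or.inl ?_
        rw [he]
        exact ha
  · obtain ⟨hsx, hsy, hpl⟩ := hs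
    have hne : x ≠ y := G.ne_of_adj hxy
    have h1 := (hEDG V (dl G x y) {s}ᶜ x y s ⟨kc5 h s x y, hpl⟩ (fun e => hsx e.symm)
      (fun e => hsy e.symm) hne (fun k => k rfl)).2 hcof
    have h2 : ae (dl G x y) x y = G := by
      ext a b
      constructor
      · rintro (⟨k, -, -⟩ | ⟨-, ⟨rfl, rfl⟩ | ⟨rfl, rfl⟩⟩)
        · exact k
        · exact hxy
        · exact hxy.symm
      · intro k
        by_cases k1 : a = x ∧ b = y
        · exact Or.inr ⟨G.ne_of_adj k, Or.inl k1⟩
        by_cases k2 : a = y ∧ b = x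
        · exact Or.inr ⟨G.ne_of_adj k, Or.inr k2⟩
        exact Or.inl ⟨k, k1, k2⟩
    rw [h2] at h1
    exact h.hn s h1

end Pool.Agent.Helper9.MA
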