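import Pool.Agent.Helper12.MA.StD
import Pool.Agent.Helper12.MA.Lib

/-!
# Project MA, module CVA: `W8` is 5-connected

Between two nonadjacent vertices there are five paths with disjoint interiors, four of length 2 and one of length 3.
-/

set_option autoImplicit false

namespace Pool.Agent.Helper9.MA

open Pool.Agent.Helper12.MA

/-- the relation of `W8` -/
private def R8 (a b : Fin 8) : Prop :=
  (a.val ≤ 1 ∧ 2 ≤ b.val) ∨ (a.val = 2 ∧ b.val = 3) ∨ (a.val = 2 ∧ b.val = 4) ∨ (a.val = 3 ∧ b.val = 4) ∨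
    (a.val = 5 ∧ b.val = 6) ∨ (a.val = 5 ∧ b.val = 7) ∨ (a.val = 6 ∧ b.val = 7) ∨ (2 ≤ a.val ∧ b.val = a.val + 3)

private instance (a b : Fin 8) : Decidable (R8 a b) := by
  unfold R8
  infer_instance

private theorem adj_iff (a b : Fin 8) : W8.Adj a b ↔ a ≠ b ∧ (R8 a b ∨ R8 b a) :=
  SimpleGraph.fromRel_adj _ a b

private def tab : List (Fin 8 × Fin 8 × Fin 8 × Fin 8 × Fin 8 × Fin 8) :=
  [(2, 3, 4, 5, 6, 7),
   (0, 1, 3, 5, 4, 7), (0, 1, 5, 3, 7, 4),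
   (0, 1, 4, 5, 3, 6), (0, 1, 5, 4, 6, 3),
   (0, 1, 2, 6, 4, 7), (0, 1, 6, 2, 7, 4),
   (0, 1, 4, 6, 2, 5), (0, 1, 6, 4, 5, 2),
   (0, 1, 2, 7, 3, 6), (0, 1, 7, 2, 6, 3),
   (0, 1, 3, 7, 2, 5), (0, 1, 7, 3, 5, 2)]

private def A8 (a b : Fin 8) : Prop := a ≠ b ∧ (R8 a b ∨ R8 b a)

private instance (a b : Fin 8) : Decidable (A8 a b) := by
  unfold A8
  infer_instance

private theorem key : ∀ u v : Fin 8, u = v ∨ A8 u v ∨ ∃ t ∈ tab,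
    A8 u t.1 ∧ A8 t.1 v ∧ A8 u t.2.1 ∧ A8 t.2.1 v ∧ A8 u t.2.2.1 ∧ A8 t.2.2.1 v ∧
    A8 u t.2.2.2.1 ∧ A8 t.2.2.2.1 v ∧ A8 u t.2.2.2.2.1 ∧ A8 t.2.2.2.2.1 t.2.2.2.2.2 ∧
    A8 t.2.2.2.2.2 v := by
  decide

private theorem tab_ne : ∀ t ∈ tab, t.1 ≠ t.2.1 ∧ t.1 ≠ t.2.2.1 ∧ t.1 ≠ t.2.2.2.1 ∧
    t.2.1 ≠ t.2.2.1 ∧ t.2.1 ≠ t.2.2.2.1 ∧ t.2.2.1 ≠ t.2.2.2.1 ∧
    (t.1 ≠ t.2.2.2.2.1 ∧ t.2.1 ≠ t.2.2.2.2.1 ∧ t.2.2.1 ≠ t.2.2.2.2.1 ∧
      t.2.2.2.1 ≠ t.2.2.2.2.1) ∧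
    (t.1 ≠ t.2.2.2.2.2 ∧ t.2.1 ≠ t.2.2.2.2.2 ∧ t.2.2.1 ≠ t.2.2.2.2.2 ∧
      t.2.2.2.1 ≠ t.2.2.2.2.2) := by
  decide

private theorem five (X : Set (Fin 8)) (hX : X.ncard ≤ 4) (a b c d e : Fin 8)
    (ha : a ∈ X) (hb : b ∈ X) (hc : c ∈ X) (hd : d ∈ X)
    (h1 : a ≠ b) (h2 : a ≠ c) (h3 : a ≠ d) (h4 : b ≠ c) (h5 : b ≠ d) (h6 : c ≠ d)
    (h7 : a ≠ e) (h8 : b ≠ e) (h9 : c ≠ e) (h10 : d ≠ e) : e ∉ X := by
  intro he
  have hsub : (({a, b, c, d, e} : Finset (Fin 8)) : Set (Fin 8)) ⊆ X := by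
    intro x hx
    simp only [Finset.coe_insert, Finset.coe_singleton, Set.mem_insert_iff,
      Set.mem_singleton_iff] at hx
    rcases hx with rfl | rfl | rfl | rfl | rfl <;> assumption
  have h := Set.ncard_le_ncard hsub X.toFinite
  rw [Set.ncard_coe_finset] at h
  have hcard : ({a, b, c, d, e} : Finset (Fin 8)).card = 5 := by
    rw [Finset.card_insert_of_notMem, Finset.card_insert_of_notMem,
      Finset.card_insert_of_notMem, Finset.card_insert_of_notMem, Finset.card_singleton]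
    all_goals
      simp only [Finset.mem_insert, Finset.mem_singleton, not_or]
    · exact h10
    · exact ⟨h6, h9⟩
    · exact ⟨h4, h5, h8⟩
    · exact ⟨h1, h2, h3, h7⟩
  omega

theorem hCVA : StCVA := by
  intro X hX
  have st : ∀ (u v : Fin 8) (hu : u ∈ Xᶜ) (hv : v ∈ Xᶜ), A8 u v →
      (W8.induce Xᶜ).Reachable ⟨u, hu⟩ ⟨v, hv⟩ := by
    intro u v hu hv h
    apply SimpleGraph.Adj.reachable
    rw [SimpleGraph.comap_adj]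
    exact (adj_iff u v).2 h
  have two : ∀ (u v a : Fin 8) (hu : u ∈ Xᶜ) (hv : v ∈ Xᶜ), a ∉ X → A8 u a → A8 a v →
      (W8.induce Xᶜ).Reachable ⟨u, hu⟩ ⟨v, hv⟩ := fun u v a hu hv ha h1 h2 =>
    (st u a hu ha h1).trans (st a v ha hv h2)
  rintro ⟨u, hu⟩ ⟨v, hv⟩
  rcases key u v with h | h | ⟨⟨a, b, c, d, e, f⟩, ht, a1, a2, b1, b2, c1, c2, d1, d2, e1, e2, e3⟩
  · subst h
    exact SimpleGraph.Reachable.refl _
  · exact st u v hu hv h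
  · obtain ⟨n1, n2, n3, n4, n5, n6, ⟨m1, m2, m3, m4⟩, k1, k2, k3, k4⟩ := tab_ne _ ht
    by_cases ha : a ∈ X
    · by_cases hb : b ∈ X
      · by_cases hc : c ∈ X
        · by_cases hd : d ∈ X
          · have he : e ∉ X := five X hX a b c d e ha hb hc hd n1 n2 n3 n4 n5 n6 m1 m2 m3 m4
            have hf : f ∉ X := five X hX a b c d f ha hb hc hd n1 n2 n3 n4 n5 n6 k1 k2 k3 k4
            exact ((st u e hu he e1).trans (st e f he hf e2)).trans (st f v hf hv e3)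
          · exact two u v d hu hv hd d1 d2
        · exact two u v c hu hv hc c1 c2
      · exact two u v b hu hv hb b1 b2
    · exact two u v a hu hv ha a1 a2

end Pool.Agent.Helper9.MA
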